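import Pool.Agent.H30.PBE.Conv

/-!
MP_696a38_gt, Q1: a completely integrable Hamiltonian flow on a closed symplectic manifold
(of dimension six) with positive barcode entropy.

The manifold is `ℝ⁶/G`, a bundle with fibre a four-dimensional torus over a two-dimensional torus,
and the Hamiltonian is a cut-off of the energy of the geodesic flow of a closed Sol-manifold.
-/

set_option autoImplicit false

namespace Pool.Agent.Results.MP_696a38_gt.PositiveBarcodeEntropy

open Pool.Agent.H30.PBE

/-- There are a closed symplectic manifold `M = E/G`, `E = ℝ⁶`, and a smooth function `H` on `M`
whose Hamiltonian flow is completely integrable such that (1) for all large `m` the function `m H`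
has in at least `exp (κ m)` noncontractible free homotopy classes exactly two 1-periodic orbits
(up to time shift), both transversally nondegenerate, and all action differences in these classes
are zero or at least `δ > 0`, with `δ` independent of `m`; (2) hence the barcode entropy of `H`
is positive. -/
theorem result : ∃ (E : Type) (_ : NormedAddCommGroup E) (_ : NormedSpace ℝ E) (om : E → E → ℝ)
    (G : Type) (_ : Group G) (a : G → E → E) (H : E → ℝ), Symplectic om 3 ∧ Closed om a ∧
    SmoothFn a H ∧ Integrable om a H 3 ∧ ExpOrbits om a H ∧ (∃ len, Barcodes om a len) ∧
    ∀ len, Barcodes om a len → 0 < hbar len H :=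
  main

end Pool.Agent.Results.MP_696a38_gt.PositiveBarcodeEntropy
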